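import Mathlib
import Pool.Agent.Results.MP_e99302_nt.EqualHeightRuns

set_option autoImplicit false

/-!
# The frequency of zeros among the consecutive Collatz stopping-time differences

`Z(N) / N` tends to the natural density `δ > 0` of the set of the integers that reach `1`.
-/

namespace Pool.Agent.Results.MP_34aa70_nt.ZeroDifferences

open Filter Topology

/-- The Collatz map. -/
def C (n : ℕ) : ℕ := if n % 2 = 0 then n / 2 else 3 * n + 1

/-- `T(n)` is defined and equal to `k`: `k` is the least number with `C^k n = 1`. -/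
def TEq (n k : ℕ) : Prop := C^[k] n = 1 ∧ ∀ j < k, C^[j] n ≠ 1

/-- `a(n) = T(n+1) - T(n)` is defined and equal to `v`. -/
def AEq (n : ℕ) (v : ℤ) : Prop := ∃ k l : ℕ, TEq n k ∧ TEq (n + 1) l ∧ (l : ℤ) - k = v

/-- `Z(N)`, the number of the `1 ≤ i ≤ N` such that `a(i)` is defined and `a(i) = 0`. -/
noncomputable def Z (N : ℕ) : ℕ := {i : ℕ | 1 ≤ i ∧ i ≤ N ∧ AEq i 0}.ncard

/-- There is a number `0 < δ ≤ 1`, the natural density of the set of the integers that reach `1`, such
that `Z(N) / N` tends to `δ`; and `δ = 1` if and only if every positive integer reaches `1`. So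
`liminf Z(N) / N > 1/2` if and only if `δ > 1/2`, and `Z(N) / N` tends to `1` if the Collatz conjecture
is true. -/
theorem result : ∃ δ : ℝ, 0 < δ ∧ δ ≤ 1 ∧
    Tendsto (fun N : ℕ => (Z N : ℝ) / N) atTop (𝓝 δ) ∧
    Tendsto (fun N : ℕ => ({n : ℕ | 1 ≤ n ∧ n ≤ N ∧ ∃ k, C^[k] n = 1}.ncard : ℝ) / N) atTop (𝓝 δ) ∧
    (δ = 1 ↔ ∀ n : ℕ, 1 ≤ n → ∃ k, C^[k] n = 1) ∧
    (1 / 2 < liminf (fun N : ℕ => (Z N : ℝ) / N) atTop ↔ 1 / 2 < δ) := by
  classical
  obtain ⟨-, δ, h0, h1, h2, h3, h4⟩ := Pool.Agent.Results.MP_e99302_nt.EqualHeightRuns.result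
  have h5 := h4 (fun _ => 1) (by
    have hlog : Tendsto (fun n : ℕ => Real.log n) atTop atTop :=
      Real.tendsto_log_atTop.comp tendsto_natCast_atTop_atTop
    have h1 : Tendsto (fun x : ℝ => Real.log x / x ^ ((1 : ℝ) / 2)) atTop (𝓝 0) :=
      (isLittleO_log_rpow_atTop (by norm_num : (0 : ℝ) < 1 / 2)).tendsto_div_nhds_zero
    refine (h1.comp hlog).congr (fun n => ?_)
    simp only [Function.comp]
    rw [Real.sqrt_eq_rpow]
    push_cast
    ring)
  have hZ : Tendsto (fun N : ℕ => (Z N : ℝ) / N) atTop (𝓝 δ) := by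
    refine Tendsto.congr (fun N => ?_) h5
    unfold Z
    congr 3
    ext n
    constructor
    · rintro ⟨a1, a2, h, a3⟩
      exact ⟨a1, a2, h, h, a3 0 (by norm_num), a3 1 le_rfl, sub_self _⟩
    · rintro ⟨a1, a2, k, l, a3, a4, a5⟩
      have hkl : l = k := by omega
      subst hkl
      refine ⟨a1, a2, l, fun i hi => ?_⟩
      have : i = 0 ∨ i = 1 := by omega
      rcases this with rfl | rfl
      · exact a3
      · exact a4
  exact ⟨δ, h0, h1, hZ, h3, h2, by rw [hZ.liminf_eq]⟩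

end Pool.Agent.Results.MP_34aa70_nt.ZeroDifferences
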